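import Mathlib
import Pool.Agent.H96S.WP.FF

/-!
# Every finite group over extensions of `κ(X)` of every large degree, all subfields known

`G` is any finite group, `n` any number `≥ ((|G| + 2)!)^3`, and `κ` any finite field; the bound does
not depend on `κ`. There are extensions `E(X)` of `κ(X)` of degree `n [G : X]`, for all subgroups
`X` of `G`, without new constants, such that `E(1) / E(G)` is Galois with group `G`, and the fields
between `κ(X)` and `E(H)` are exactly `κ(X)` and the `E(X)` with `H ≤ X ≤ G`.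
-/

set_option autoImplicit false

namespace Pool.Agent.Results.MP_7f581e_nt.CoverIntervals

/-- The constants `κ` are algebraically closed in `L`. -/
def Regular (κ L : Type) [Field κ] [Field L] [Algebra κ L] : Prop :=
  ∀ y : L, IsAlgebraic κ y → y ∈ Set.range (algebraMap κ L)

/-- The fields `E X`, `X ≤ G`, have degree `n * [G : X]` and are ordered in reverse to the
subgroups; the subfields of `E H` are the base field and the `E X` with `H ≤ X`. -/
def DualIntervals {K L : Type} [Field K] [Field L] [Algebra K L] {G : Type} [Group G]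
    (n : ℕ) (E : Subgroup G → IntermediateField K L) : Prop :=
  (∀ X, Module.finrank K (E X) = n * X.index) ∧
  (∀ X X', E X ≤ E X' ↔ X' ≤ X) ∧
  ∀ (H : Subgroup G) (F : IntermediateField K L), F ≤ E H ↔ F = ⊥ ∨ ∃ X, H ≤ X ∧ F = E X

/-- `E'` contains `E`, and the extension `E' / E` is Galois with group `G`. -/
def GaloisWithGroup {K L : Type} [Field K] [Field L] [Algebra K L]
    (E E' : IntermediateField K L) (G : Type) [Group G] : Prop :=
  ∃ F : IntermediateField E L, (∀ x : L, x ∈ F ↔ x ∈ E') ∧ IsGalois E F ∧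
    Nonempty (G ≃* (F ≃ₐ[E] F))

end Pool.Agent.Results.MP_7f581e_nt.CoverIntervals

open Pool.Agent.Results.MP_7f581e_nt.CoverIntervals Pool.Agent.H96S.WP Pool.Agent.H391R2 in
theorem Pool.Agent.Results.MP_7f581e_nt.CoverIntervals.result :
    ∀ (G : Type) [Group G] [Finite G] (n : ℕ), ((Nat.card G + 2).factorial) ^ 3 ≤ n →
      ∀ (κ : Type) [Field κ] [Finite κ],
      ∃ (L : Type) (_ : Field L) (_ : Algebra (RatFunc κ) L) (_ : Algebra κ L)
        (_ : IsScalarTower κ (RatFunc κ) L) (_ : FiniteDimensional (RatFunc κ) L)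
        (_ : IsGalois (RatFunc κ) L) (_ : Wr G n ≃* (L ≃ₐ[RatFunc κ] L))
        (E : Subgroup G → IntermediateField (RatFunc κ) L),
        Regular κ L ∧ DualIntervals n E ∧ GaloisWithGroup (E ⊤) (E ⊥) G := by
  intro G _ _ n hn κ _ _
  obtain ⟨h3, L, i1, i2, i3, i4, i5, i6, e, hreg⟩ := ff_wreath G n hn κ
  have hpos : 0 < n := by omega
  let a : Fin n := ⟨0, hpos⟩
  exact ⟨L, i1, i2, i3, i4, i5, i6, e, fun X => fld e (ptSub a X), hreg,
    ⟨pt_degree e a, pt_le e a, pt_sub e a⟩, pt_gal e a⟩
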