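import Mathlib
import Pool.Agent.H96S.WP.FF

/-!
# Extensions of `κ(X)` without intermediate fields, of diagonal type

`T` is any finite nonabelian simple group, `n` any number `≥ ((|T| + 2)!)^3`, and `κ` any finite
field; the bound does not depend on `κ`. There is an extension `E / κ(X)` of degree `|T| ^ (n - 1)`
without fields properly between `κ(X)` and `E`, whose Galois closure `L` has group `T ≀ S_n` over
`κ(X)` and `T × S_n` over `E`, and contains no new constants. In particular `T` is the group of a
Galois extension of `E` without new constants.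
-/

set_option autoImplicit false

namespace Pool.Agent.Results.MP_7f581e_nt.DiagonalCovers

open Pool.Agent.H391R2 (Wr)

/-- The constants `κ` are algebraically closed in `L`. -/
def Regular (κ L : Type) [Field κ] [Field L] [Algebra κ L] : Prop :=
  ∀ y : L, IsAlgebraic κ y → y ∈ Set.range (algebraMap κ L)

/-- `E` is the field of the elements of `L` fixed by the automorphisms `e w`, where `w` runs through
the elements of `T ≀ S_n` all of whose coordinates are equal. -/
def IsDiagonalField {K L T : Type} [Field K] [Field L] [Algebra K L] [Group T] {n : ℕ}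
    (e : Wr T n ≃* (L ≃ₐ[K] L)) (E : IntermediateField K L) : Prop :=
  ∀ x : L, x ∈ E ↔ ∀ w : Wr T n, (∀ i j, w.left i = w.left j) → e w x = x

/-- `E` has no subfields besides `K` and `E`, and is different from `K`. -/
def NoProperSubfields {K L : Type} [Field K] [Field L] [Algebra K L]
    (E : IntermediateField K L) : Prop :=
  E ≠ ⊥ ∧ ∀ F : IntermediateField K L, F ≤ E → F = ⊥ ∨ F = E

/-- `L` is the Galois closure of `E` over `K`. -/
def IsClosure {K L : Type} [Field K] [Field L] [Algebra K L]
    (E : IntermediateField K L) : Prop :=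
  ∀ F : IntermediateField K L, E ≤ F → Normal K F → F = ⊤

/-- The group `Q` is the Galois group of a Galois extension of `E` inside `L`. -/
def IsGaloisGroupOver {K L : Type} [Field K] [Field L] [Algebra K L]
    (E : IntermediateField K L) (Q : Type) [Group Q] : Prop :=
  ∃ F : IntermediateField E L, IsGalois E F ∧ Nonempty (Q ≃* (F ≃ₐ[E] F))

end Pool.Agent.Results.MP_7f581e_nt.DiagonalCovers

open Pool.Agent.Results.MP_7f581e_nt.DiagonalCovers Pool.Agent.H96S.WP Pool.Agent.H391R2 in
theorem Pool.Agent.Results.MP_7f581e_nt.DiagonalCovers.result :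
    ∀ (T : Type) [Group T] [Finite T] [IsSimpleGroup T], (∃ a b : T, a * b ≠ b * a) →
      ∀ n : ℕ, ((Nat.card T + 2).factorial) ^ 3 ≤ n → ∀ (κ : Type) [Field κ] [Finite κ],
      ∃ (L : Type) (_ : Field L) (_ : Algebra (RatFunc κ) L) (_ : Algebra κ L)
        (_ : IsScalarTower κ (RatFunc κ) L) (_ : FiniteDimensional (RatFunc κ) L)
        (_ : IsGalois (RatFunc κ) L) (e : Wr T n ≃* (L ≃ₐ[RatFunc κ] L))
        (E : IntermediateField (RatFunc κ) L),
        Regular κ L ∧ IsDiagonalField e E ∧
        Module.finrank (RatFunc κ) E = Nat.card T ^ (n - 1) ∧ NoProperSubfields E ∧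
        IsClosure E ∧ Nonempty ((T × Equiv.Perm (Fin n)) ≃* (L ≃ₐ[E] L)) ∧
        IsGaloisGroupOver E T := by
  intro T _ _ _ hT n hn κ _ _
  obtain ⟨h3, L, i1, i2, i3, i4, i5, i6, e, hreg⟩ := ff_wreath T n hn κ
  have hpos : 0 < n := by omega
  refine ⟨L, i1, i2, i3, i4, i5, i6, e, fld e (diagSub T n), hreg, ?_, diag_degree e hpos,
    ⟨diag_ne_bot e hT (by omega), diag_simple e hT (by omega)⟩, diag_closure e hT h3,
    diag_gal e hpos, diag_quot e hpos⟩
  intro x
  rw [mem_fld]
  exact Iff.rfl
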