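import Mathlib
import Pool.Agent.Q247.IG.Fld
import Pool.Agent.TH59.WX.UH
import Pool.Agent.H96S.NS.Rig
import Pool.Agent.H96S.NS.Sub

/-!
# Normal and subnormal subgroups of Galois groups over rational function fields

For an extension `K` of a field `κ` and a finite group `H` we consider Galois extensions `L` of `K`
in which `κ` is algebraically closed (regular extensions), and the groups `H` which are isomorphic to a normal
subgroup of `Gal(L/K)`, or to a normal subgroup of a normal subgroup.
-/

set_option autoImplicit false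

namespace Pool.Agent.Results.MP_7f581e_nt.NormalSubgroups

/-- The group `G` occurs over `K`. -/
def Occurs (K G : Type) [Field K] [Group G] : Prop :=
  ∃ (L : Type) (_ : Field L) (_ : Algebra K L), FiniteDimensional K L ∧ IsGalois K L ∧
    Nonempty ((L ≃ₐ[K] L) ≃* G)

/-- `H` is isomorphic to a normal subgroup of the group of a Galois extension of `K`, finite or
infinite. -/
def NormalIn (K H : Type) [Field K] [Group H] : Prop :=
  ∃ (L : Type) (_ : Field L) (_ : Algebra K L) (_ : IsGalois K L) (ι : H →* (L ≃ₐ[K] L)),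
    Function.Injective ι ∧ ι.range.Normal

/-- There is a Galois extension `L` of `K`, finite or infinite, in which `κ` is algebraically closed,
with the property `P`. -/
def RegExt (κ K : Type) [Field κ] [Field K] [Algebra κ K]
    (P : ∀ (L : Type) [Field L] [Algebra K L], Prop) : Prop :=
  ∃ (L : Type) (_ : Field L) (_ : Algebra K L) (_ : Algebra κ L) (_ : IsScalarTower κ K L),
    IsGalois K L ∧ (∀ y : L, IsAlgebraic κ y → y ∈ Set.range (algebraMap κ L)) ∧ P L

/-- The group `G` occurs regularly over the extension `K` of the field `κ`. -/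
def OccursReg (κ K G : Type) [Field κ] [Field K] [Algebra κ K] [Group G] : Prop :=
  RegExt κ K fun L _ _ => FiniteDimensional K L ∧ Nonempty ((L ≃ₐ[K] L) ≃* G)

/-- `H` is isomorphic to a normal subgroup of the group of a regular Galois extension of `K`, finite
or infinite. -/
def NormalReg (κ K H : Type) [Field κ] [Field K] [Algebra κ K] [Group H] : Prop :=
  RegExt κ K fun L _ _ => ∃ ι : H →* (L ≃ₐ[K] L), Function.Injective ι ∧ ι.range.Normal

/-- `H` is isomorphic to a normal subgroup of a normal subgroup of the group of a finite regular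
Galois extension of `K`. -/
def SubnormalReg (κ K H : Type) [Field κ] [Field K] [Algebra κ K] [Group H] : Prop :=
  RegExt κ K fun L _ _ => FiniteDimensional K L ∧ ∃ (ι : H →* (L ≃ₐ[K] L))
    (M : Subgroup (L ≃ₐ[K] L)), Function.Injective ι ∧ M.Normal ∧ ι.range ≤ M ∧
    ∀ m ∈ M, ∀ τ ∈ ι.range, m * τ * m⁻¹ ∈ ι.range

end Pool.Agent.Results.MP_7f581e_nt.NormalSubgroups

open Pool.Agent.Results.MP_7f581e_nt.NormalSubgroups Pool.Agent.H96S.NS
  Pool.Agent.H391R2 Pool.Agent.H391R2.T4

namespace Pool.Agent.Results.MP_7f581e_nt.NormalSubgroups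

section
variable {K L : Type} [Field K] [Field L] [Algebra K L] [IsGalois K L]

/-- The fixed field of the kernel of a homomorphism onto a finite group. -/
theorem fixed_of_surj {G : Type} [Group G] [Finite G] (f : (L ≃ₐ[K] L) →* G)
    (hs : Function.Surjective f) (hc : IsClosed (f.ker : Set (L ≃ₐ[K] L))) :
    ∃ F : IntermediateField K L, FiniteDimensional K F ∧ IsGalois K F ∧
      Nonempty ((F ≃ₐ[K] F) ≃* G) := by
  let C : ClosedSubgroup (L ≃ₐ[K] L) := ⟨f.ker, hc⟩
  have hN : C.1.Normal := inferInstanceAs f.ker.Normal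
  let F := IntermediateField.fixedField C.1
  have h1 : F.fixingSubgroup = C.1 := InfiniteGalois.fixingSubgroup_fixedField C
  have h2 : IsGalois K F := by
    apply (InfiniteGalois.normal_iff_isGalois F).1
    rw [h1]; exact hN
  have e1 : ((L ≃ₐ[K] L) ⧸ f.ker) ≃* (F ≃ₐ[K] F) := InfiniteGalois.normalAutEquivQuotient C
  have e2 : (F ≃ₐ[K] F) ≃* G := e1.symm.trans (QuotientGroup.quotientKerEquivOfSurjective f hs)
  have : Finite (F ≃ₐ[K] F) := Finite.of_equiv _ e2.symm.toEquiv
  exact ⟨F, Pool.Agent.Q247.IG.findim K F, h2, ⟨e2⟩⟩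

end

/-- The rigid group. -/
theorem rigid_real (G : Type) [Group G] [Finite G] :
    ∃ (H : Type) (_ : Group H), Finite H ∧
      (∀ (K : Type) [Field K], NormalIn K H → Occurs K G) ∧
      ∀ (κ K : Type) [Field κ] [Field K] [Algebra κ K], NormalReg κ K H → OccursReg κ K G := by
  obtain ⟨R, j1, j2, p, l, hpl, hR⟩ := rigid_ext G
  have key : ∀ (K L : Type) [Field K] [Field L] [Algebra K L] [IsGalois K L]
      (ι : R →* (L ≃ₐ[K] L)), Function.Injective ι → ι.range.Normal →
      ∃ F : IntermediateField K L, FiniteDimensional K F ∧ IsGalois K F ∧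
        Nonempty ((F ≃ₐ[K] F) ≃* G) := by
    intro K L _ _ _ _ ι hι hN
    obtain ⟨f, hf, hz⟩ := hR (L ≃ₐ[K] L) ι.range (MonoidHom.ofInjective hι)
    have : Finite ι.range := Finite.of_equiv _ (MonoidHom.ofInjective hι).toEquiv
    refine fixed_of_surj f (fun g => ⟨_, (hf (l g)).trans (hpl g)⟩)
      (Pool.Agent.Q247.IG.closed_ker ι.range f hz)
  refine ⟨R, j1, j2, ?_, ?_⟩
  · rintro K _ ⟨L, i1, i2, i3, ι, hι, hN⟩
    obtain ⟨F, h1, h2, h3⟩ := key K L ι hι hN
    exact ⟨F, inferInstance, inferInstance, h1, h2, h3⟩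
  · rintro κ K _ _ _ ⟨L, i1, i2, i3, i4, i5, hreg, ι, hι, hN⟩
    obtain ⟨F, h1, h2, h3⟩ := key K L ι hι hN
    have t1 : IsScalarTower κ K F := by
      apply IsScalarTower.of_algebraMap_eq
      intro x
      apply Subtype.ext
      change algebraMap κ L x = algebraMap K L (algebraMap κ K x)
      exact IsScalarTower.algebraMap_apply κ K L x
    refine ⟨F, inferInstance, inferInstance, inferInstance, t1, h2, ?_, h1, h3⟩
    intro y hy
    have t2 : IsScalarTower κ F L := IsScalarTower.of_algebraMap_eq (fun x => rfl)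
    obtain ⟨x, hx⟩ := hreg (y : L) hy.algebraMap
    exact ⟨x, Subtype.ext hx⟩

theorem normalIn_of_occurs (K G : Type) [Field K] [Group G] (h : Occurs K G) : NormalIn K G := by
  obtain ⟨L, i1, i2, i3, i4, ⟨e⟩⟩ := h
  refine ⟨L, i1, i2, i4, e.symm.toMonoidHom, e.symm.injective, ?_⟩
  rw [MonoidHom.range_eq_top.2 e.symm.surjective]
  infer_instance

theorem normalReg_of_occurs (κ K G : Type) [Field κ] [Field K] [Algebra κ K] [Group G]
    (h : OccursReg κ K G) : NormalReg κ K G := by
  obtain ⟨L, i1, i2, i3, i4, i5, hreg, i6, ⟨e⟩⟩ := h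
  refine ⟨L, i1, i2, i3, i4, i5, hreg, e.symm.toMonoidHom, e.symm.injective, ?_⟩
  rw [MonoidHom.range_eq_top.2 e.symm.surjective]
  infer_instance

theorem result :
    -- (1) a rigid group `H` for every finite group `G`, which works over all fields
    (∀ (G : Type) [Group G] [Finite G], ∃ (H : Type) (_ : Group H), Finite H ∧
      (∀ (K : Type) [Field K], NormalIn K H → Occurs K G) ∧
      ∀ (κ K : Type) [Field κ] [Field K] [Algebra κ K], NormalReg κ K H → OccursReg κ K G) ∧
    -- (2) the question is equivalent to the one for normal subgroups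
    ((∀ p : ℕ, ∀ _ : Fact p.Prime, ∀ (G : Type) [Group G] [Finite G],
        Occurs (RatFunc (ZMod p)) G) ↔
      ∀ p : ℕ, ∀ _ : Fact p.Prime, ∀ (H : Type) [Group H] [Finite H],
        NormalIn (RatFunc (ZMod p)) H) ∧
    -- (3) the same for regular extensions of `κ(X)`, for every field `κ`
    (∀ (κ : Type) [Field κ], (∀ (G : Type) [Group G] [Finite G], OccursReg κ (RatFunc κ) G) ↔
      ∀ (H : Type) [Group H] [Finite H], NormalReg κ (RatFunc κ) H) ∧
    -- (4) unconditionally, for every field `κ`: every finite group is a normal subgroup of a normal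
    -- subgroup of the group of a finite regular extension of `κ(X)`
    ∀ (κ : Type) [Field κ] (H : Type) [Group H] [Finite H], SubnormalReg κ (RatFunc κ) H := by
  refine ⟨fun G _ _ => rigid_real G, ⟨?_, ?_⟩, fun κ _ => ⟨?_, ?_⟩, ?_⟩
  · intro h p hp H _ _
    exact normalIn_of_occurs _ _ (h p hp H)
  · intro h p hp G _ _
    obtain ⟨H, iH, hfin, h1, _⟩ := rigid_real G
    exact h1 _ (h p hp H)
  · intro h H _ _
    exact normalReg_of_occurs _ _ _ (h H)
  · intro h G _ _
    obtain ⟨H, iH, hfin, _, h1⟩ := rigid_real G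
    exact h1 κ _ (h H)
  · intro κ _ H _ _
    let α : H →* (κ ≃ₐ[κ] κ) := 1
    have hw : WeakSol κ κ H α := by
      refine ⟨κ, inferInstance, inferInstance, inferInstance, inferInstance, inferInstance,
        inferInstance, 1, fun ρ => Subsingleton.elim _ _⟩
    obtain ⟨F, i1, i2, i3, i4, i5, i6, i7, i8, γ, hγ, hreg⟩ :=
      (Pool.Agent.TH59.WX.reg_fin_unif κ κ H α hw _ le_rfl).1
    have h34 : i4 = i3 := Algebra.algebra_ext i4 i3 (fun x =>
      @IsScalarTower.algebraMap_apply κ κ F _ _ _ _ i3 i4 i6 x)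
    subst h34
    obtain ⟨N, M, h1, h2, h3, h4, e, h5, h6⟩ := sub_of_sym α
      ⟨0, pow_pos (Nat.factorial_pos _) 3⟩ γ hγ
    let ι₀ : H →* α.ker := (MonoidHom.id H).codRestrict α.ker (fun _ => rfl)
    have hι₀ : Function.Surjective ι₀ := fun c => ⟨c, rfl⟩
    have hι₀' : Function.Injective ι₀ := fun a b hab => congrArg (fun c : α.ker => (c : H)) hab
    have hr : (N.subtype.comp (e.toMonoidHom.comp ι₀)).range = N := by
      rw [MonoidHom.range_comp, MonoidHom.range_eq_top.2 (e.surjective.comp hι₀),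
        ← MonoidHom.range_eq_map, Subgroup.range_subtype]
    refine ⟨F, i1, i2, i4, i5, i8, hreg trivial, i7, N.subtype.comp (e.toMonoidHom.comp ι₀), M,
      Subtype.val_injective.comp (e.injective.comp hι₀'), h1, ?_, ?_⟩
    · rw [hr]; exact h2
    · rw [hr]; exact h3

end Pool.Agent.Results.MP_7f581e_nt.NormalSubgroups
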