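import Mathlib
import Pool.Agent.H96S.WP.FF

/-!
# Extensions of `κ(X)` without intermediate fields, with group `G ≀ S_n` in product action

`G` is any finite group, `n` any number `≥ ((|G| + 2)!)^3`, and `κ` any finite field; the bound does
not depend on `κ`. There is a Galois extension `L / κ(X)` with group `G ≀ S_n` in which `κ` is
algebraically closed, such that for every maximal subgroup `M` of `G` which is not normal the fixed
field `E` of `M ≀ S_n`, of degree `[G : M] ^ n`, has no subfields properly between `κ(X)` and `E`.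
If `M` has trivial core then `L` is the Galois closure of `E`. In geometric terms: an indecomposable
covering of the line over `κ` whose arithmetic and geometric monodromy group is the primitive group
`G ≀ S_n` in product action.
-/

set_option autoImplicit false

namespace Pool.Agent.Results.MP_7f581e_nt.PrimitiveProductCovers

open Pool.Agent.H391R2 (Wr)

/-- The constants `κ` are algebraically closed in `L`. -/
def Regular (κ L : Type) [Field κ] [Field L] [Algebra κ L] : Prop :=
  ∀ y : L, IsAlgebraic κ y → y ∈ Set.range (algebraMap κ L)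

/-- `E` is the field of the elements of `L` fixed by the automorphisms `e w`, where `w` runs through
the elements of `G ≀ S_n` all of whose coordinates lie in `M`. -/
def IsFixedField {K L G : Type} [Field K] [Field L] [Algebra K L] [Group G] {n : ℕ}
    (e : Wr G n ≃* (L ≃ₐ[K] L)) (M : Subgroup G) (E : IntermediateField K L) : Prop :=
  ∀ x : L, x ∈ E ↔ ∀ w : Wr G n, (∀ i, w.left i ∈ M) → e w x = x

/-- `E` has no subfields besides `K` and `E`, and is different from `K`. -/
def NoProperSubfields {K L : Type} [Field K] [Field L] [Algebra K L]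
    (E : IntermediateField K L) : Prop :=
  E ≠ ⊥ ∧ ∀ F : IntermediateField K L, F ≤ E → F = ⊥ ∨ F = E

/-- `L` is the Galois closure of `E` over `K`. -/
def IsClosure {K L : Type} [Field K] [Field L] [Algebra K L]
    (E : IntermediateField K L) : Prop :=
  ∀ F : IntermediateField K L, E ≤ F → Normal K F → F = ⊤

/-- The interval `[H, G]` contains no pair `X < X'` such that `X` is normal in `X'`. -/
def NoNormalPairs {G : Type} [Group G] (H : Subgroup G) : Prop :=
  ∀ X X' : Subgroup G, H ≤ X → X < X' → ∃ g ∈ X', ∃ x ∈ X, g * x * g⁻¹ ∉ X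

/-- The fields `E M`, `M ≤ G`, are the fixed fields of the groups `M ≀ S_n`; their degrees, order
and subfields. -/
def ProductFields {K L G : Type} [Field K] [Field L] [Algebra K L] [Group G] {n : ℕ}
    (e : Wr G n ≃* (L ≃ₐ[K] L)) (E : Subgroup G → IntermediateField K L) : Prop :=
  (∀ M, IsFixedField e M (E M)) ∧
  (∀ M, Module.finrank K (E M) = M.index ^ n) ∧
  (∀ X X', E X ≤ E X' ↔ X' ≤ X) ∧
  (∀ H, NoNormalPairs H → ∀ F : IntermediateField K L, F ≤ E H → ∃ X, H ≤ X ∧ F = E X) ∧
  (∀ M, IsCoatom M → ¬ M.Normal → NoProperSubfields (E M)) ∧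
  ∀ M : Subgroup G, M ≠ ⊤ → M.normalCore = ⊥ → IsClosure (E M)

end Pool.Agent.Results.MP_7f581e_nt.PrimitiveProductCovers

open Pool.Agent.Results.MP_7f581e_nt.PrimitiveProductCovers Pool.Agent.H96S.WP
  Pool.Agent.H391R2 in
theorem Pool.Agent.Results.MP_7f581e_nt.PrimitiveProductCovers.result :
    ∀ (G : Type) [Group G] [Finite G] (n : ℕ), ((Nat.card G + 2).factorial) ^ 3 ≤ n →
      ∀ (κ : Type) [Field κ] [Finite κ],
      ∃ (L : Type) (_ : Field L) (_ : Algebra (RatFunc κ) L) (_ : Algebra κ L)
        (_ : IsScalarTower κ (RatFunc κ) L) (_ : FiniteDimensional (RatFunc κ) L)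
        (_ : IsGalois (RatFunc κ) L) (e : Wr G n ≃* (L ≃ₐ[RatFunc κ] L))
        (E : Subgroup G → IntermediateField (RatFunc κ) L),
        Regular κ L ∧ ProductFields e E := by
  intro G _ _ n hn κ _ _
  obtain ⟨h3, L, i1, i2, i3, i4, i5, i6, e, hreg⟩ := ff_wreath G n hn κ
  have hpos : 0 < n := by omega
  refine ⟨L, i1, i2, i3, i4, i5, i6, e, fun M => fld e (prodSub M n), hreg, ?_, prod_degree e,
    prod_le e hpos, prod_sub e, ?_, ?_⟩
  · intro M x
    rw [mem_fld]
    exact Iff.rfl
  · intro M hM hnn
    exact ⟨prod_ne_bot e hpos hM.1, prod_simple e hM hnn⟩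
  · intro M hM hc
    exact prod_closure e hM hc
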